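import Mathlib

/-! # Riesz bases: the coefficient map -/

open Filter Topology

namespace Pool.Agent.W758.BLT

set_option linter.unusedSectionVars false

variable {ι : Type*} {H : Type*} [NormedAddCommGroup H] [InnerProductSpace ℂ H] [CompleteSpace H]

/-- the space of square summable families -/
noncomputable abbrev L2 (ι : Type*) := lp (fun _ : ι => ℂ) 2

lemma L2_summable (c : L2 ι) : Summable fun k => ‖c k‖ ^ 2 := by
  have h := lp.memℓp c
  rw [memℓp_gen_iff (by norm_num)] at h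
  simpa using h

lemma L2_norm_sq (c : L2 ι) : ‖c‖ ^ 2 = ∑' k, ‖c k‖ ^ 2 := by
  have h := lp.norm_rpow_eq_tsum (p := 2) (by norm_num) c
  simpa using h

/-- a square summable family as an element of `L2` -/
noncomputable def mkL2 (c : ι → ℂ) (hc : Summable fun k => ‖c k‖ ^ 2) : L2 ι :=
  ⟨c, (memℓp_gen_iff (by norm_num)).2 (by simpa using hc)⟩

@[simp] lemma mkL2_apply (c : ι → ℂ) (hc : Summable fun k => ‖c k‖ ^ 2) (k : ι) :
    mkL2 c hc k = c k := rfl

lemma summable_of_upper {v : ι → H} {B : ℝ} (hB0 : 0 < B)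
    (hB : ∀ (s : Finset ι) (c : ι → ℂ), ‖∑ k ∈ s, c k • v k‖ ^ 2 ≤ B * ∑ k ∈ s, ‖c k‖ ^ 2)
    (c : ι → ℂ) (hc : Summable fun k => ‖c k‖ ^ 2) : Summable fun k => c k • v k := by
  rw [summable_iff_vanishing_norm]
  intro ε hε
  rw [summable_iff_vanishing_norm] at hc
  obtain ⟨s, hs⟩ := hc (ε ^ 2 / B) (by positivity)
  refine ⟨s, fun t ht => ?_⟩
  have h1 := hs t ht
  have h2 := hB t c
  rw [Real.norm_eq_abs, abs_of_nonneg (Finset.sum_nonneg fun i _ => by positivity),
    lt_div_iff₀ hB0] at h1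
  have h3 : ‖∑ k ∈ t, c k • v k‖ ^ 2 < ε ^ 2 := by linarith [mul_comm B (∑ k ∈ t, ‖c k‖ ^ 2)]
  exact lt_of_pow_lt_pow_left₀ 2 hε.le h3

/-- the synthesis operator -/
noncomputable def syn (v : ι → H) (B : ℝ) (hB0 : 0 < B)
    (hB : ∀ (s : Finset ι) (c : ι → ℂ), ‖∑ k ∈ s, c k • v k‖ ^ 2 ≤ B * ∑ k ∈ s, ‖c k‖ ^ 2) :
    L2 ι →L[ℂ] H :=
  LinearMap.mkContinuous
    { toFun := fun c => ∑' k, c k • v k
      map_add' := by
        intro c c'
        rw [← Summable.tsum_add (summable_of_upper hB0 hB c (L2_summable c))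
          (summable_of_upper hB0 hB c' (L2_summable c'))]
        refine tsum_congr fun k => ?_
        rw [lp.coeFn_add, Pi.add_apply, add_smul]
      map_smul' := by
        intro a c
        rw [RingHom.id_apply, ← Summable.tsum_const_smul a
          (summable_of_upper hB0 hB c (L2_summable c))]
        refine tsum_congr fun k => ?_
        rw [lp.coeFn_smul, Pi.smul_apply, smul_eq_mul, mul_smul] }
    (Real.sqrt B) (by
      intro c
      have hs := (summable_of_upper hB0 hB c (L2_summable c)).hasSum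
      have h1 : ‖∑' k, c k • v k‖ ^ 2 ≤ B * ‖c‖ ^ 2 := by
        rw [L2_norm_sq]
        refine le_of_tendsto_of_tendsto ((hs.norm).pow 2)
          (((L2_summable c).hasSum).const_mul B) (Eventually.of_forall fun s => hB s c)
      have h2 : ‖∑' k, c k • v k‖ ^ 2 ≤ (Real.sqrt B * ‖c‖) ^ 2 := by
        rwa [mul_pow, Real.sq_sqrt hB0.le]
      exact (sq_le_sq₀ (norm_nonneg _) (by positivity)).1 h2)

section

variable {v : ι → H} {A B : ℝ} (hA0 : 0 < A) (hB0 : 0 < B)
  (hB : ∀ (s : Finset ι) (c : ι → ℂ), ‖∑ k ∈ s, c k • v k‖ ^ 2 ≤ B * ∑ k ∈ s, ‖c k‖ ^ 2)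
  (hA : ∀ (s : Finset ι) (c : ι → ℂ), A * ∑ k ∈ s, ‖c k‖ ^ 2 ≤ ‖∑ k ∈ s, c k • v k‖ ^ 2)
  (hc : ∀ h : H, (∀ k, inner ℂ h (v k) = 0) → h = 0)

lemma syn_apply (c : L2 ι) : syn v B hB0 hB c = ∑' k, c k • v k := rfl

lemma syn_hasSum (c : L2 ι) : HasSum (fun k => c k • v k) (syn v B hB0 hB c) :=
  (summable_of_upper hB0 hB c (L2_summable c)).hasSum

include hA in
lemma syn_lower (c : L2 ι) : A * ‖c‖ ^ 2 ≤ ‖syn v B hB0 hB c‖ ^ 2 := by
  rw [L2_norm_sq]
  exact le_of_tendsto_of_tendsto (((L2_summable c).hasSum).const_mul A)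
    (((syn_hasSum hB0 hB c).norm).pow 2) (Eventually.of_forall fun s => hA s c)

include hA hA0 in
lemma syn_antilip : ∃ K, AntilipschitzWith K (syn v B hB0 hB) := by
  refine ⟨Real.toNNReal (Real.sqrt A)⁻¹, ?_⟩
  refine AddMonoidHomClass.antilipschitz_of_bound _ fun c => ?_
  have h := syn_lower hB0 hB hA c
  have h1 : (Real.sqrt A * ‖c‖) ^ 2 ≤ ‖syn v B hB0 hB c‖ ^ 2 := by
    rwa [mul_pow, Real.sq_sqrt hA0.le]
  have h2 := (sq_le_sq₀ (by positivity) (norm_nonneg _)).1 h1
  have h3 : 0 < Real.sqrt A := Real.sqrt_pos.2 hA0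
  rw [Real.coe_toNNReal _ (by positivity), inv_mul_eq_div, le_div_iff₀ h3]
  linarith

lemma single_summable [DecidableEq ι] (m : ι) :
    Summable fun k => ‖(if k = m then (1 : ℂ) else 0)‖ ^ 2 :=
  summable_of_ne_finset_zero (s := {m}) (fun b hb => by
    rw [Finset.mem_singleton] at hb
    simp [hb])

lemma syn_single [DecidableEq ι] (m : ι) :
    syn v B hB0 hB (mkL2 (fun k => if k = m then 1 else 0) (single_summable m)) = v m := by
  rw [syn_apply, tsum_eq_single m]
  · simp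
  · intro b hb
    simp [hb]

include hA hA0 hc in
lemma syn_bij : Function.Bijective (syn v B hB0 hB) := by
  classical
  obtain ⟨K, hK⟩ := syn_antilip hA0 hB0 hB hA
  refine ⟨hK.injective, ?_⟩
  have hcl : IsClosed (Set.range (syn v B hB0 hB)) :=
    hK.isClosed_range (syn v B hB0 hB).uniformContinuous
  have hcl' : IsClosed ((LinearMap.range (syn v B hB0 hB).toLinearMap : Submodule ℂ H) : Set H) := by
    convert hcl using 1
    ext; simp
  have h1 : (LinearMap.range (syn v B hB0 hB).toLinearMap)ᗮ = ⊥ := by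
    rw [eq_bot_iff]
    intro h hh
    rw [Submodule.mem_bot]
    refine hc h fun k => ?_
    rw [Submodule.mem_orthogonal'] at hh
    exact hh _ ⟨_, syn_single hB0 hB k⟩
  have h2 := (Submodule.topologicalClosure_eq_top_iff).2 h1
  rw [IsClosed.submodule_topologicalClosure_eq hcl'] at h2
  exact fun y => by
    have : y ∈ LinearMap.range (syn v B hB0 hB).toLinearMap := by rw [h2]; trivial
    exact this

/-- the coefficient map -/
noncomputable def coef : H ≃L[ℂ] L2 ι :=
  (ContinuousLinearEquiv.ofBijective (syn v B hB0 hB)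
    (LinearMap.ker_eq_bot.2 (syn_bij hA0 hB0 hB hA hc).1)
    (LinearMap.range_eq_top.2 (syn_bij hA0 hB0 hB hA hc).2)).symm

lemma coef_hasSum (f : H) :
    HasSum (fun k => coef hA0 hB0 hB hA hc f k • v k) f := by
  have h := syn_hasSum hB0 hB (coef hA0 hB0 hB hA hc f)
  have h2 : syn v B hB0 hB (coef hA0 hB0 hB hA hc f) = f :=
    ContinuousLinearEquiv.ofBijective_apply_symm_apply _ _ _ f
  rwa [h2] at h

lemma coef_v [DecidableEq ι] (m k : ι) :
    coef hA0 hB0 hB hA hc (v m) k = if k = m then 1 else 0 := by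
  have h2 : coef hA0 hB0 hB hA hc (v m) =
      mkL2 (fun k => if k = m then (1 : ℂ) else 0) (single_summable m) := by
    rw [← syn_single hB0 hB m]
    exact ContinuousLinearEquiv.ofBijective_symm_apply_apply _ _ _ _
  rw [h2, mkL2_apply]

end

end Pool.Agent.W758.BLT
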