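import Mathlib
import Pool.Agent.W758.BLT.Abs

/-! # The commutator argument -/

open Filter Topology

namespace Pool.Agent.W758.BLT

set_option linter.unusedSectionVars false

/-- evaluation -/
noncomputable def ev {ι : Type*} (k : ι) : L2 ι →L[ℂ] ℂ :=
  LinearMap.mkContinuous
    { toFun := fun c => c k
      map_add' := fun c c' => by simp
      map_smul' := fun a c => by simp } 1 (fun c => by
      rw [one_mul]
      exact lp.norm_apply_le_norm (by norm_num) c k)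

@[simp] lemma ev_apply {ι : Type*} (k : ι) (c : L2 ι) : ev k c = c k := rfl

/-- multiplication by a bounded family -/
noncomputable def mulL2 {ι : Type*} (m : ι → ℂ) (hm : ∀ k, ‖m k‖ ≤ 2) (x : L2 ι) : L2 ι :=
  mkL2 (fun k => m k * x k) (by
    refine Summable.of_nonneg_of_le (fun k => by positivity) (fun k => ?_)
      ((L2_summable x).mul_left 4)
    rw [norm_mul, mul_pow]
    have h1 : ‖m k‖ ^ 2 ≤ 2 ^ 2 := pow_le_pow_left₀ (norm_nonneg _) (hm k) 2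
    nlinarith [sq_nonneg ‖x k‖])

@[simp] lemma mulL2_apply {ι : Type*} (m : ι → ℂ) (hm : ∀ k, ‖m k‖ ≤ 2) (x : L2 ι) (k : ι) :
    mulL2 m hm x k = m k * x k := rfl

lemma mulL2_norm {ι : Type*} (m : ι → ℂ) (hm : ∀ k, ‖m k‖ ≤ 2) (x : L2 ι) :
    ‖mulL2 m hm x‖ ≤ 2 * ‖x‖ := by
  have h : ‖mulL2 m hm x‖ ^ 2 ≤ (2 * ‖x‖) ^ 2 := by
    rw [mul_pow, L2_norm_sq, L2_norm_sq, ← tsum_mul_left]
    refine Summable.tsum_le_tsum (fun k => ?_) (L2_summable _) ((L2_summable x).mul_left _)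
    rw [mulL2_apply, norm_mul, mul_pow]
    have h1 : ‖m k‖ ^ 2 ≤ 2 ^ 2 := pow_le_pow_left₀ (norm_nonneg _) (hm k) 2
    nlinarith [sq_nonneg ‖x k‖]
  exact (sq_le_sq₀ (norm_nonneg _) (by positivity)).1 h

lemma mulL2_sub {ι : Type*} (m : ι → ℂ) (hm : ∀ k, ‖m k‖ ≤ 2) (x y : L2 ι) :
    mulL2 m hm (x - y) = mulL2 m hm x - mulL2 m hm y := by
  apply lp.ext
  funext k
  rw [lp.coeFn_sub, Pi.sub_apply, mulL2_apply, mulL2_apply, mulL2_apply, lp.coeFn_sub,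
    Pi.sub_apply, mul_sub]

lemma mulL2_smul {ι : Type*} (m : ι → ℂ) (hm : ∀ k, ‖m k‖ ≤ 2) (a : ℂ) (x : L2 ι) :
    mulL2 m hm (a • x) = a • mulL2 m hm x := by
  apply lp.ext
  funext k
  rw [lp.coeFn_smul, Pi.smul_apply, mulL2_apply, mulL2_apply, lp.coeFn_smul,
    Pi.smul_apply, smul_eq_mul, smul_eq_mul]
  ring

/-- bounded families tending to zero pointwise -/
lemma mulL2_tendsto {ι : Type*} (m : ℝ → ι → ℂ) (hm : ∀ r k, ‖m r k‖ ≤ 2)
    (h0 : ∀ k, Tendsto (fun r => m r k) (𝓝[≠] 0) (𝓝 0)) (x : L2 ι) :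
    Tendsto (fun r => ‖mulL2 (m r) (hm r) x‖) (𝓝[≠] (0 : ℝ)) (𝓝 0) := by
  have h1 : Tendsto (fun r => ‖mulL2 (m r) (hm r) x‖ ^ 2) (𝓝[≠] (0 : ℝ)) (𝓝 0) := by
    have h2 := tendsto_tsum_of_dominated_convergence (𝓕 := 𝓝[≠] (0 : ℝ))
      (f := fun r k => ‖m r k * x k‖ ^ 2) (g := fun _ : ι => (0 : ℝ))
      (bound := fun k => 4 * ‖x k‖ ^ 2) ((L2_summable x).mul_left 4)
      (fun k => by
        have h3 := ((h0 k).mul_const (x k)).norm.pow 2
        simpa using h3)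
      (Eventually.of_forall fun r k => by
        rw [norm_mul, mul_pow, Real.norm_of_nonneg (by positivity)]
        have h1 : ‖m r k‖ ^ 2 ≤ 2 ^ 2 := pow_le_pow_left₀ (norm_nonneg _) (hm r k) 2
        nlinarith [sq_nonneg ‖x k‖])
    rw [tsum_zero] at h2
    refine h2.congr fun r => ?_
    rw [L2_norm_sq]
    rfl
  have h2 := (Real.continuous_sqrt.tendsto 0).comp h1
  rw [Real.sqrt_zero] at h2
  refine h2.congr fun r => ?_
  rw [Function.comp_apply, Real.sqrt_sq (norm_nonneg _)]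

section

variable {ι : Type*} [AddCommGroup ι] [DecidableEq ι] {H : Type*} [NormedAddCommGroup H]
  [InnerProductSpace ℂ H] [CompleteSpace H]
  {P : ι → H →L[ℂ] H} {g : H} {c : H →L[ℂ] L2 ι}
  (hs : ∀ f, HasSum (fun k => c f k • P k g) f)
  (hv : ∀ m k, c (P m g) k = if k = m then 1 else 0)
  {ω : ι → ι → ℂ} (hP : ∀ k m f, P k (P m f) = ω k m • P (k + m) f) (hP0 : P 0 g = g)
  (hω0 : ω 0 0 = 1)

include hs hv hP in
lemma coef_P (k : ι) (f : H) : c (P k f) 0 = ω k (-k) * c f (-k) := by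
  have h2 := ((ev (0 : ι)).comp (c.comp (P k))).hasSum (hs f)
  have h3 : (fun m => ((ev (0 : ι)).comp (c.comp (P k))) (c f m • P m g)) =
      fun m => if m = -k then ω k (-k) * c f (-k) else 0 := by
    funext m
    simp only [ContinuousLinearMap.comp_apply, map_smul, hP,
      ev_apply, smul_eq_mul]
    rw [hv]
    by_cases hm : m = -k
    · rw [if_pos hm, if_pos (by rw [hm]; simp), hm]
      ring
    · rw [if_neg hm, if_neg (fun h => hm (eq_neg_of_add_eq_zero_right h.symm))]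
      simp
  have h4 := hasSum_ite_eq (-k) (ω k (-k) * c f (-k))
  rw [← h3] at h4
  exact h2.unique h4

include hs hv hP hP0 hω0 in
lemma coef_V {V : H →L[ℂ] H} {ψ : ι → ℂ} (hV : ∀ k, V (P k g) = ψ k • P k (V g)) (hψ0 : ψ 0 = 1)
    (f : H) :
    HasSum (fun k => ψ k * ω k (-k) * c f k * c (V g - g) (-k)) (c (V f - f) 0) := by
  have h2 := ((ev (0 : ι)).comp (c.comp V)).hasSum (hs f)
  have h3 := hasSum_ite_eq (0 : ι) (c f 0)
  have h4 := h2.sub h3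
  have h5 : ((ev (0 : ι)).comp (c.comp V)) f - c f 0 = c (V f - f) 0 := by
    simp
  rw [h5] at h4
  refine Eq.mp (congrArg (fun F : ι → ℂ => HasSum F _) (funext fun k => Eq.symm ?_)) h4
  have h6 : c (V g) (-k) = c (V g - g) (-k) + (if k = 0 then 1 else 0) := by
    have h7 : c g (-k) = if k = 0 then 1 else 0 := by
      have h8 := hv (0 : ι) (-k)
      rw [hP0] at h8
      rw [h8]
      simp
    rw [map_sub, lp.coeFn_sub, Pi.sub_apply, h7]
    ring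
  have h9 : ((ev (0 : ι)).comp (c.comp V)) (c f k • P k g) =
      c f k * (ψ k * (ω k (-k) * c (V g) (-k))) := by
    simp only [ContinuousLinearMap.comp_apply, map_smul, hV,
      ev_apply, smul_eq_mul]
    rw [coef_P hs hv hP]
  rw [h9, h6]
  by_cases hk : k = 0
  · subst hk
    simp only [if_true, neg_zero, hψ0, hω0]
    ring
  · rw [if_neg hk, if_neg hk]
    ring

/-- Cauchy-Schwarz for a sum -/
lemma hasSum_cs {ι : Type*} {F : ι → ℂ} {S : ℂ} (hF : HasSum F S) (x y : L2 ι)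
    (h : ∀ k, F k = x k * y k) : ‖S‖ ≤ ‖x‖ * ‖y‖ := by
  set x' : L2 ι := mkL2 (fun k => (starRingEnd ℂ) (x k)) (by simpa using L2_summable x) with hx'
  have h1 : inner ℂ x' y = S := by
    rw [lp.inner_eq_tsum]
    rw [← hF.tsum_eq]
    refine tsum_congr fun k => ?_
    rw [h, hx', mkL2_apply]
    simp [mul_comm]
  have h2 : ‖x'‖ = ‖x‖ := by
    have h3 : ‖x'‖ ^ 2 = ‖x‖ ^ 2 := by
      rw [L2_norm_sq, L2_norm_sq, hx']
      simp
    exact (sq_eq_sq₀ (norm_nonneg _) (norm_nonneg _)).1 h3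
  rw [← h1, ← h2]
  exact norm_inner_le_norm _ _

/-- reflection -/
noncomputable def refl2 {ι : Type*} [AddCommGroup ι] (x : L2 ι) : L2 ι :=
  mkL2 (fun k => x (-k)) ((Equiv.neg ι).summable_iff.2 (L2_summable x))

lemma refl2_norm {ι : Type*} [AddCommGroup ι] (x : L2 ι) : ‖refl2 x‖ = ‖x‖ := by
  have h3 : ‖refl2 x‖ ^ 2 = ‖x‖ ^ 2 := by
    rw [L2_norm_sq, L2_norm_sq]
    exact (Equiv.neg ι).tsum_eq (fun k => ‖x k‖ ^ 2)
  exact (sq_eq_sq₀ (norm_nonneg _) (norm_nonneg _)).1 h3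

include hs hv hP hP0 hω0 in
/-- the commutator estimate -/
lemma comm_bound {U V : H →L[ℂ] H} {χ ψ : ι → ℂ}
    (hω : ∀ k, ω k (-k) = ω (-k) k)
    (hU : ∀ k, U (P k g) = χ k • P k (U g)) (hχ0 : χ 0 = 1)
    (hV : ∀ k, V (P k g) = ψ k • P k (V g)) (hψ0 : ψ 0 = 1)
    (hm : ∀ k, ‖(ψ k - χ (-k)) * ω k (-k)‖ ≤ 2) :
    ‖c (V (U g) - U (V g)) 0‖ ≤
      ‖mulL2 (fun k => (ψ k - χ (-k)) * ω k (-k)) hm (c (U g - g))‖ * ‖c (V g - g)‖ := by
  have h1 := coef_V hs hv hP hP0 hω0 hV hψ0 (U g - g)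
  have h2 := coef_V hs hv hP hP0 hω0 hU hχ0 (V g - g)
  have h3 := (Equiv.neg ι).hasSum_iff.2 h2
  have h4 := h1.sub h3
  have h5 : c (V (U g - g) - (U g - g)) 0 - c (U (V g - g) - (V g - g)) 0 =
      c (V (U g) - U (V g)) 0 := by
    simp only [map_sub, lp.coeFn_sub, Pi.sub_apply]
    ring
  rw [h5] at h4
  rw [← refl2_norm (c (V g - g))]
  refine hasSum_cs h4 _ _ fun k => ?_
  simp only [Function.comp_apply, Equiv.neg_apply, neg_neg, mulL2_apply]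
  have h6 : refl2 (c (V g - g)) k = c (V g - g) (-k) := rfl
  rw [h6, ← hω k]
  ring


include hs hv hP hP0 hω0 in
/-- **The commutator argument.** -/
theorem main_abs {U V : ℝ → H →L[ℂ] H} {χ ψ : ℝ → ι → ℂ}
    (hω : ∀ k, ω k (-k) = ω (-k) k) (hω1 : ∀ k, ‖ω k (-k)‖ ≤ 1)
    (hU : ∀ r k, U r (P k g) = χ r k • P k (U r g)) (hχ0 : ∀ r, χ r 0 = 1)
    (hV : ∀ r k, V r (P k g) = ψ r k • P k (V r g)) (hψ0 : ∀ r, ψ r 0 = 1)
    (hχ1 : ∀ r k, ‖χ r k‖ ≤ 1) (hψ1 : ∀ r k, ‖ψ r k‖ ≤ 1)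
    (hχl : ∀ k, Tendsto (fun r => χ r k) (𝓝[≠] 0) (𝓝 1))
    (hψl : ∀ k, Tendsto (fun r => ψ r k) (𝓝[≠] 0) (𝓝 1))
    {q : ℝ → ℂ} (hUV : ∀ r, V r (U r g) = q r • U r (V r g))
    (hq : Tendsto (fun r : ℝ => ‖q r - 1‖ / r ^ 2) (𝓝[≠] 0) (𝓝 (2 * Real.pi)))
    {C : ℝ} (hVg : ∀ r, ‖V r g - g‖ ≤ C * |r|)
    {y : H} (hUg : Tendsto (fun r : ℝ => (r : ℂ)⁻¹ • (U r g - g)) (𝓝[≠] 0) (𝓝 y))
    (hUVg : Tendsto (fun r => U r (V r g)) (𝓝[≠] 0) (𝓝 g)) : False := by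
  have hm : ∀ r k, ‖(ψ r k - χ r (-k)) * ω k (-k)‖ ≤ 2 := by
    intro r k
    rw [norm_mul]
    have h1 := norm_sub_le (ψ r k) (χ r (-k))
    have h2 := hψ1 r k
    have h3 := hχ1 r (-k)
    have h4 := hω1 k
    nlinarith [norm_nonneg (ψ r k - χ r (-k)), norm_nonneg (ω k (-k))]
  have hm0 : ∀ k, Tendsto (fun r => (ψ r k - χ r (-k)) * ω k (-k)) (𝓝[≠] 0) (𝓝 0) := by
    intro k
    have := ((hψl k).sub (hχl (-k))).mul_const (ω k (-k))
    simpa using this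
  -- the difference quotient of the coefficients
  have hD : Tendsto (fun r : ℝ => (r : ℂ)⁻¹ • c (U r g - g)) (𝓝[≠] 0) (𝓝 (c y)) := by
    have h1 := (c.continuous.tendsto y).comp hUg
    refine h1.congr fun r => ?_
    rw [Function.comp_apply, map_smul]
  have hD2 : Tendsto (fun r : ℝ => ‖mulL2 (fun k => (ψ r k - χ r (-k)) * ω k (-k)) (hm r)
      ((r : ℂ)⁻¹ • c (U r g - g))‖) (𝓝[≠] 0) (𝓝 0) := by
    have h1 := mulL2_tendsto (fun r k => (ψ r k - χ r (-k)) * ω k (-k)) hm hm0 (c y)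
    have h2 : Tendsto (fun r : ℝ => 2 * ‖(r : ℂ)⁻¹ • c (U r g - g) - c y‖) (𝓝[≠] 0) (𝓝 0) := by
      have := ((hD.sub_const (c y)).norm).const_mul 2
      simpa using this
    have h3 := h2.add h1
    rw [add_zero] at h3
    refine squeeze_zero (fun r => norm_nonneg _) (fun r => ?_) h3
    have h4 := mulL2_norm _ (hm r) ((r : ℂ)⁻¹ • c (U r g - g) - c y)
    rw [mulL2_sub] at h4
    have h5 := norm_le_norm_sub_add (mulL2 (fun k => (ψ r k - χ r (-k)) * ω k (-k)) (hm r)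
      ((r : ℂ)⁻¹ • c (U r g - g)))
      (mulL2 (fun k => (ψ r k - χ r (-k)) * ω k (-k)) (hm r) (c y))
    linarith
  -- the main inequality
  have hmain : ∀ r : ℝ, r ≠ 0 → ‖q r - 1‖ / r ^ 2 * ‖c (U r (V r g)) 0‖ ≤
      ‖mulL2 (fun k => (ψ r k - χ r (-k)) * ω k (-k)) (hm r)
      ((r : ℂ)⁻¹ • c (U r g - g))‖ * (‖c‖ * C) := by
    intro r hr
    have h1 := comm_bound hs hv hP hP0 hω0 hω (hU r) (hχ0 r) (hV r) (hψ0 r) (hm r)
    have h2 : V r (U r g) - U r (V r g) = (q r - 1) • U r (V r g) := by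
      rw [hUV, sub_smul, one_smul]
    rw [h2, map_smul, lp.coeFn_smul, Pi.smul_apply, smul_eq_mul, norm_mul] at h1
    have h3 : ‖c (V r g - g)‖ ≤ ‖c‖ * (C * |r|) :=
      (c.le_opNorm _).trans (mul_le_mul_of_nonneg_left (hVg r) (norm_nonneg _))
    have h4 : ‖mulL2 (fun k => (ψ r k - χ r (-k)) * ω k (-k)) (hm r) (c (U r g - g))‖ =
        |r| * ‖mulL2 (fun k => (ψ r k - χ r (-k)) * ω k (-k)) (hm r)
          ((r : ℂ)⁻¹ • c (U r g - g))‖ := by
      rw [mulL2_smul, norm_smul, norm_inv, Complex.norm_real, Real.norm_eq_abs,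
        mul_inv_cancel_left₀ (abs_ne_zero.2 hr)]
    rw [h4] at h1
    have h5 : 0 < r ^ 2 := by positivity
    rw [div_mul_eq_mul_div, div_le_iff₀ h5]
    refine h1.trans ?_
    refine (mul_le_mul_of_nonneg_left h3 (by positivity)).trans (le_of_eq ?_)
    rw [← sq_abs r]
    ring
  have hL : Tendsto (fun r : ℝ => ‖q r - 1‖ / r ^ 2 * ‖c (U r (V r g)) 0‖) (𝓝[≠] 0)
      (𝓝 (2 * Real.pi * ‖c g 0‖)) := by
    refine hq.mul ?_
    exact ((((ev (0 : ι)).comp c).continuous.tendsto g).comp hUVg).norm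
  have hR := hD2.mul_const (‖c‖ * C)
  have hle := le_of_tendsto_of_tendsto hL hR (by
    filter_upwards [self_mem_nhdsWithin] with r hr
    exact hmain r hr)
  have h7 : c g 0 = 1 := by
    have := hv 0 0
    rw [hP0] at this
    simpa using this
  rw [h7, norm_one, zero_mul] at hle
  linarith [Real.pi_pos]

end

end Pool.Agent.W758.BLT
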