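import Mathlib
import Pool.Agent.W758.BLT.Comm

/-! # Time-frequency shifts on `L²(ℝ^d)` -/

open Filter Topology MeasureTheory

namespace Pool.Agent.W758.BLT

set_option linter.unusedSectionVars false

variable {d : ℕ}

/-- time-frequency shift of a function -/
noncomputable def tf (a b : Fin d → ℝ) (f : (Fin d → ℝ) → ℂ) : (Fin d → ℝ) → ℂ := fun x =>
  Complex.exp (2 * (Real.pi : ℂ) * Complex.I * ((∑ j, b j * x j : ℝ) : ℂ)) * f (x - a)

lemma norm_exp_two (r : ℝ) : ‖Complex.exp (2 * (Real.pi : ℂ) * Complex.I * (r : ℂ))‖ = 1 := by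
  rw [Complex.norm_exp]
  simp

lemma measurePreserving_sub (a : Fin d → ℝ) :
    MeasurePreserving (fun x : Fin d → ℝ => x - a) volume volume :=
  measurePreserving_sub_right volume a

lemma tf_aesm (a b : Fin d → ℝ) {f : (Fin d → ℝ) → ℂ} (hf : AEStronglyMeasurable f volume) :
    AEStronglyMeasurable (tf a b f) volume := by
  refine AEStronglyMeasurable.mul ?_ (hf.comp_measurePreserving (measurePreserving_sub a))
  refine Continuous.aestronglyMeasurable ?_
  fun_prop

lemma eLpNorm_tf (a b : Fin d → ℝ) {f : (Fin d → ℝ) → ℂ} (hf : AEStronglyMeasurable f volume) :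
    eLpNorm (tf a b f) 2 volume = eLpNorm f 2 volume := by
  rw [← eLpNorm_comp_measurePreserving hf (measurePreserving_sub a)]
  refine eLpNorm_congr_norm_ae (Eventually.of_forall fun x => ?_)
  rw [tf, norm_mul, norm_exp_two, one_mul]
  rfl

lemma tf_memLp (a b : Fin d → ℝ) {f : (Fin d → ℝ) → ℂ} (hf : MemLp f 2 volume) :
    MemLp (tf a b f) 2 volume :=
  ⟨tf_aesm a b hf.1, by rw [eLpNorm_tf a b hf.1]; exact hf.2⟩

lemma tf_congr (a b : Fin d → ℝ) {f f' : (Fin d → ℝ) → ℂ} (h : f =ᵐ[volume] f') :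
    tf a b f =ᵐ[volume] tf a b f' := by
  have h1 := (measurePreserving_sub a).quasiMeasurePreserving.ae_eq_comp h
  filter_upwards [h1] with x hx
  simp only [tf]
  simp only [Function.comp_apply] at hx
  rw [hx]

/-- the Hilbert space -/
noncomputable abbrev HH (d : ℕ) := Lp ℂ 2 (volume : Measure (Fin d → ℝ))

/-- time-frequency shifts as operators -/
noncomputable def W (a b : Fin d → ℝ) : HH d →L[ℂ] HH d :=
  LinearMap.mkContinuous
    { toFun := fun f => (tf_memLp a b (Lp.memLp f)).toLp (tf a b f)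
      map_add' := by
        intro f f'
        rw [← MemLp.toLp_add, MemLp.toLp_eq_toLp_iff]
        refine (tf_congr a b (Lp.coeFn_add f f')).trans ?_
        refine Eventually.of_forall fun x => ?_
        simp only [tf, Pi.add_apply]
        ring
      map_smul' := by
        intro c f
        rw [RingHom.id_apply, ← MemLp.toLp_const_smul, MemLp.toLp_eq_toLp_iff]
        refine (tf_congr a b (Lp.coeFn_smul c f)).trans ?_
        refine Eventually.of_forall fun x => ?_
        simp only [tf, Pi.smul_apply, smul_eq_mul]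
        ring } 1 (by
      intro f
      rw [one_mul]
      change ‖(tf_memLp a b (Lp.memLp f)).toLp (tf a b f)‖ ≤ ‖f‖
      rw [Lp.norm_toLp, eLpNorm_tf a b (Lp.memLp f).1, Lp.norm_def])

lemma W_def (a b : Fin d → ℝ) (f : HH d) :
    W a b f = (tf_memLp a b (Lp.memLp f)).toLp (tf a b f) := rfl

lemma W_toLp (a b : Fin d → ℝ) {f : (Fin d → ℝ) → ℂ} (hf : MemLp f 2 volume) :
    W a b (hf.toLp f) = (tf_memLp a b hf).toLp (tf a b f) := by
  rw [W_def, MemLp.toLp_eq_toLp_iff]
  exact tf_congr a b hf.coeFn_toLp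

lemma W_norm (a b : Fin d → ℝ) (f : HH d) : ‖W a b f‖ = ‖f‖ := by
  rw [W_def, Lp.norm_toLp, eLpNorm_tf a b (Lp.memLp f).1, Lp.norm_def]

/-- the phase -/
noncomputable def ph (r : ℝ) : ℂ := Complex.exp (2 * (Real.pi : ℂ) * Complex.I * (r : ℂ))

@[simp] lemma ph_zero : ph 0 = 1 := by simp [ph]

@[simp] lemma norm_ph (r : ℝ) : ‖ph r‖ = 1 := norm_exp_two r

lemma ph_add (r s : ℝ) : ph (r + s) = ph r * ph s := by
  rw [ph, ph, ph, ← Complex.exp_add]
  congr 1
  push_cast
  ring

lemma continuous_ph : Continuous ph := by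
  unfold ph
  fun_prop

lemma W_comp (a b a' b' : Fin d → ℝ) (f : HH d) :
    W a b (W a' b' f) = ph (-∑ j, a j * b' j) • W (a + a') (b + b') f := by
  rw [W_def a' b', W_toLp, W_def, ← MemLp.toLp_const_smul, MemLp.toLp_eq_toLp_iff]
  refine Eventually.of_forall fun x => ?_
  simp only [tf, Pi.smul_apply, smul_eq_mul]
  rw [← ph, ← ph, ← ph, ← mul_assoc, ← mul_assoc, ← ph_add, ← ph_add]
  congr 2
  · rw [← Finset.sum_neg_distrib, ← Finset.sum_add_distrib, ← Finset.sum_add_distrib]
    refine Finset.sum_congr rfl fun j _ => ?_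
    simp only [Pi.sub_apply, Pi.add_apply]
    ring
  · abel_nf

lemma W_zero (f : HH d) : W 0 0 f = f := by
  rw [W_def]
  apply Lp.ext
  refine (MemLp.coeFn_toLp _).trans (Eventually.of_forall fun x => ?_)
  simp [tf]

end Pool.Agent.W758.BLT
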