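import Mathlib
import Pool.Agent.W758.BLT.TF

/-! # Norms, modulations -/

open Filter Topology MeasureTheory

namespace Pool.Agent.W758.BLT

set_option linter.unusedSectionVars false

variable {d : ℕ}

lemma norm_sq_toLp {f : (Fin d → ℝ) → ℂ} (hf : MemLp f 2 volume) :
    ‖hf.toLp f‖ ^ 2 = ∫ x, ‖f x‖ ^ 2 := by
  have h1 : ‖hf.toLp f‖ ^ 2 = RCLike.re (inner ℂ (hf.toLp f) (hf.toLp f)) :=
    (inner_self_eq_norm_sq (𝕜 := ℂ) (hf.toLp f)).symm
  rw [h1, L2.inner_def, ← integral_re (L2.integrable_inner _ _)]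
  refine integral_congr_ae ?_
  filter_upwards [hf.coeFn_toLp] with x hx
  rw [hx]
  exact inner_self_eq_norm_sq (𝕜 := ℂ) (f x)

lemma inner_toLp {f f' : (Fin d → ℝ) → ℂ} (hf : MemLp f 2 volume) (hf' : MemLp f' 2 volume) :
    inner ℂ (hf.toLp f) (hf'.toLp f') = ∫ x, (starRingEnd ℂ) (f x) * f' x := by
  rw [L2.inner_def]
  refine integral_congr_ae ?_
  filter_upwards [hf.coeFn_toLp, hf'.coeFn_toLp] with x hx hx'
  rw [hx, hx', RCLike.inner_apply]
  ring

lemma norm_ph_sub_one_le (r : ℝ) : ‖ph r - 1‖ ≤ 2 * Real.pi * |r| := by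
  have h := Real.norm_exp_I_mul_ofReal_sub_one_le (x := 2 * Real.pi * r)
  have h2 : ph r = Complex.exp (Complex.I * ((2 * Real.pi * r : ℝ) : ℂ)) := by
    rw [ph]; congr 1; push_cast; ring
  rw [h2]
  refine h.trans (le_of_eq ?_)
  rw [Real.norm_eq_abs, abs_mul, abs_of_pos (by positivity)]

/-- the unit vector times `r` -/
noncomputable def e (j : Fin d) (r : ℝ) : Fin d → ℝ := Pi.single j r

lemma sum_e_mul (j : Fin d) (r : ℝ) (x : Fin d → ℝ) : ∑ i, e j r i * x i = r * x j := by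
  classical
  rw [Finset.sum_eq_single j]
  · simp [e]
  · intro i _ hi
    simp [e, Pi.single_eq_of_ne hi]
  · intro h
    exact absurd (Finset.mem_univ j) h

lemma sum_mul_e (j : Fin d) (r : ℝ) (x : Fin d → ℝ) : ∑ i, x i * e j r i = x j * r := by
  have := sum_e_mul j r x
  simp only [mul_comm] at this ⊢
  rw [this]

lemma hasDerivAt_ph (y : ℝ) : HasDerivAt (fun r : ℝ => ph (r * y)) (2 * Real.pi * Complex.I * y) 0 := by
  have h1 : HasDerivAt (fun z : ℂ => Complex.exp (2 * (Real.pi : ℂ) * Complex.I * (z * y)))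
      (Complex.exp (2 * (Real.pi : ℂ) * Complex.I * (((0 : ℝ) : ℂ) * y)) *
        (2 * (Real.pi : ℂ) * Complex.I * (1 * y))) (((0 : ℝ) : ℂ)) := by
    exact (((hasDerivAt_id (((0 : ℝ) : ℂ))).mul_const (y : ℂ)).const_mul _).cexp
  have h2 := h1.comp_ofReal
  simp only [Complex.ofReal_zero, zero_mul, mul_zero, Complex.exp_zero, one_mul] at h2
  convert h2 using 2 with r
  rw [ph]
  push_cast
  ring_nf

/-- the difference quotients of modulations converge -/
lemma modulation_tendsto (j : Fin d) {g : (Fin d → ℝ) → ℂ} (hg : MemLp g 2 volume)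
    (hx : Integrable (fun x : Fin d → ℝ => (∑ i, x i ^ 2) * ‖g x‖ ^ 2) volume) :
    ∃ y : HH d, Tendsto (fun r : ℝ => (r : ℂ)⁻¹ • (W 0 (e j r) (hg.toLp g) - hg.toLp g))
      (𝓝[≠] 0) (𝓝 y) := by
  set u : (Fin d → ℝ) → ℂ := fun x => (2 * Real.pi * Complex.I * x j) * g x with hu
  have hxj : ∀ x : Fin d → ℝ, x j ^ 2 ≤ ∑ i, x i ^ 2 := fun x =>
    Finset.single_le_sum (f := fun i => x i ^ 2) (fun i _ => sq_nonneg _) (Finset.mem_univ j)
  have hum : AEStronglyMeasurable u volume := by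
    refine AEStronglyMeasurable.mul ?_ hg.1
    refine Continuous.aestronglyMeasurable ?_
    fun_prop
  have hgint : Integrable (fun x : Fin d → ℝ => (x j) ^ 2 * ‖g x‖ ^ 2) volume := by
    refine Integrable.mono' hx ?_ (Eventually.of_forall fun x => ?_)
    · refine AEStronglyMeasurable.mul ?_ (hg.1.norm.pow 2)
      refine Continuous.aestronglyMeasurable ?_
      fun_prop
    · rw [Real.norm_of_nonneg (by positivity)]
      exact mul_le_mul_of_nonneg_right (hxj x) (by positivity)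
  have hnu : ∀ x, ‖u x‖ ^ 2 = 4 * Real.pi ^ 2 * (x j ^ 2 * ‖g x‖ ^ 2) := by
    intro x
    simp only [hu, norm_mul, Complex.norm_real, Complex.norm_I, RCLike.norm_ofNat,
      Real.norm_eq_abs, mul_one, mul_pow, sq_abs]
    ring
  have hu2 : MemLp u 2 volume := by
    rw [memLp_two_iff_integrable_sq_norm hum]
    simp only [hnu]
    exact hgint.const_mul _
  refine ⟨hu2.toLp u, ?_⟩
  rw [tendsto_iff_norm_sub_tendsto_zero]
  -- the function
  set D : ℝ → (Fin d → ℝ) → ℂ := fun r x => ((r : ℂ)⁻¹ * (ph (r * x j) - 1) -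
    2 * Real.pi * Complex.I * x j) * g x with hD
  have hDm : ∀ r, AEStronglyMeasurable (D r) volume := by
    intro r
    refine AEStronglyMeasurable.mul ?_ hg.1
    refine Continuous.aestronglyMeasurable ?_
    have := continuous_ph
    fun_prop
  have hcoef : ∀ (r : ℝ) (x : Fin d → ℝ), ‖(r : ℂ)⁻¹ * (ph (r * x j) - 1) -
    2 * Real.pi * Complex.I * x j‖ ≤ 4 * Real.pi * |x j| := by
    intro r x
    have h1 : ‖(r : ℂ)⁻¹ * (ph (r * x j) - 1)‖ ≤ 2 * Real.pi * |x j| := by
      rw [norm_mul, norm_inv, Complex.norm_real, Real.norm_eq_abs]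
      by_cases hr : r = 0
      · rw [hr]
        simp
        positivity
      · have h2 := norm_ph_sub_one_le (r * x j)
        rw [abs_mul] at h2
        rw [inv_mul_le_iff₀ (abs_pos.2 hr)]
        linarith
    have h2 : ‖2 * (Real.pi : ℂ) * Complex.I * (x j : ℂ)‖ = 2 * Real.pi * |x j| := by
      simp only [norm_mul, Complex.norm_real, Complex.norm_I, RCLike.norm_ofNat,
        Real.norm_eq_abs, mul_one, abs_of_pos Real.pi_pos]
    have h3 := norm_sub_le ((r : ℂ)⁻¹ * (ph (r * x j) - 1)) (2 * Real.pi * Complex.I * x j)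
    rw [h2] at h3
    linarith
  have hDb : ∀ r x, ‖D r x‖ ^ 2 ≤ 16 * Real.pi ^ 2 * (x j ^ 2 * ‖g x‖ ^ 2) := by
    intro r x
    rw [hD]
    simp only [norm_mul, mul_pow]
    have h1 := pow_le_pow_left₀ (norm_nonneg _) (hcoef r x) 2
    have h2 := mul_le_mul_of_nonneg_right h1 (sq_nonneg ‖g x‖)
    refine h2.trans (le_of_eq ?_)
    rw [mul_pow, mul_pow, sq_abs]
    ring
  have hD2 : ∀ r, MemLp (D r) 2 volume := by
    intro r
    rw [memLp_two_iff_integrable_sq_norm (hDm r)]
    refine Integrable.mono' (hgint.const_mul (16 * Real.pi ^ 2)) ((hDm r).norm.pow 2)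
      (Eventually.of_forall fun x => ?_)
    rw [Real.norm_of_nonneg (by positivity)]
    exact hDb r x
  have heq : ∀ r : ℝ, (r : ℂ)⁻¹ • (W 0 (e j r) (hg.toLp g) - hg.toLp g) - hu2.toLp u =
      (hD2 r).toLp (D r) := by
    intro r
    rw [W_toLp, ← MemLp.toLp_sub, ← MemLp.toLp_const_smul, ← MemLp.toLp_sub,
      MemLp.toLp_eq_toLp_iff]
    refine Eventually.of_forall fun x => ?_
    simp only [tf, hD, hu, Pi.sub_apply, Pi.smul_apply, smul_eq_mul, sub_zero]
    rw [sum_e_mul, ← ph]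
    ring
  simp only [heq]
  have hlim : Tendsto (fun r : ℝ => ∫ x, ‖D r x‖ ^ 2) (𝓝[≠] 0) (𝓝 (∫ _ : Fin d → ℝ, (0 : ℝ))) := by
    refine tendsto_integral_filter_of_dominated_convergence
      (fun x => 16 * Real.pi ^ 2 * (x j ^ 2 * ‖g x‖ ^ 2))
      (Eventually.of_forall fun r => (hDm r).norm.pow 2)
      (Eventually.of_forall fun r => Eventually.of_forall fun x => ?_)
      (hgint.const_mul _) (Eventually.of_forall fun x => ?_)
    · rw [Real.norm_of_nonneg (by positivity)]
      exact hDb r x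
    · have h1 := (hasDerivAt_ph (x j)).tendsto_slope_zero
      have h2 : Tendsto (fun r : ℝ => (r : ℂ)⁻¹ * (ph (r * x j) - 1)) (𝓝[≠] 0)
          (𝓝 (2 * Real.pi * Complex.I * x j)) := by
        refine h1.congr fun r => ?_
        simp [Complex.real_smul]
      have h3 := (((h2.sub_const (2 * Real.pi * Complex.I * x j)).mul_const (g x)).norm).pow 2
      rw [sub_self, zero_mul, norm_zero, zero_pow two_ne_zero] at h3
      exact h3
  rw [integral_zero] at hlim
  have h2 := (Real.continuous_sqrt.tendsto 0).comp hlim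
  rw [Real.sqrt_zero] at h2
  refine h2.congr fun r => ?_
  rw [Function.comp_apply, ← norm_sq_toLp (hD2 r), Real.sqrt_sq (norm_nonneg _)]

end Pool.Agent.W758.BLT
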