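import Mathlib
import Pool.Agent.W758.BLT.Mod

/-! # Translations of functions with a weak derivative in `L²` -/

open Filter Topology MeasureTheory Convolution

namespace Pool.Agent.W758.BLT

set_option linter.unusedSectionVars false

variable {d : ℕ}

/-- Cauchy-Schwarz -/
lemma cs_int {f f' : (Fin d → ℝ) → ℂ} (hf : MemLp f 2 volume) (hf' : MemLp f' 2 volume) :
    ‖∫ x, f x * f' x‖ ≤ ‖hf.toLp f‖ * ‖hf'.toLp f'‖ := by
  have hs : MemLp (fun x => (starRingEnd ℂ) (f x)) 2 volume := hf.star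
  have h1 : inner ℂ (hs.toLp _) (hf'.toLp f') = ∫ x, f x * f' x := by
    rw [inner_toLp]
    refine integral_congr_ae (Eventually.of_forall fun x => ?_)
    simp
  have h2 : ‖hs.toLp _‖ = ‖hf.toLp f‖ := by
    have h3 : ‖hs.toLp _‖ ^ 2 = ‖hf.toLp f‖ ^ 2 := by
      rw [norm_sq_toLp, norm_sq_toLp]
      simp
    exact (sq_eq_sq₀ (norm_nonneg _) (norm_nonneg _)).1 h3
  rw [← h1, ← h2]
  exact norm_inner_le_norm _ _

/-- the test functions are dense: a bound for pairings is a norm bound -/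
lemma norm_le_of_test (w : HH d) (K : ℝ) (hK : 0 ≤ K)
    (h : ∀ φ : (Fin d → ℝ) → ℂ, ContDiff ℝ ((⊤ : ℕ∞) : WithTop ℕ∞) φ → HasCompactSupport φ →
      ∀ hφ : MemLp φ 2 volume, ‖inner ℂ (hφ.toLp φ) w‖ ≤ K * ‖hφ.toLp φ‖) : ‖w‖ ≤ K := by
  -- the submodule of test functions
  let S : Submodule ℂ (HH d) :=
    { carrier := {f | ∃ φ : (Fin d → ℝ) → ℂ, ContDiff ℝ ((⊤ : ℕ∞) : WithTop ℕ∞) φ ∧
        HasCompactSupport φ ∧ ∃ hφ : MemLp φ 2 volume, f = hφ.toLp φ}
      add_mem' := by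
        rintro _ _ ⟨φ, h1, h2, h3, rfl⟩ ⟨φ', h1', h2', h3', rfl⟩
        exact ⟨φ + φ', h1.add h1', h2.add h2', h3.add h3', (MemLp.toLp_add h3 h3').symm⟩
      zero_mem' := ⟨0, contDiff_const, HasCompactSupport.zero, MemLp.zero, (MemLp.toLp_zero _).symm⟩
      smul_mem' := by
        rintro c _ ⟨φ, h1, h2, h3, rfl⟩
        exact ⟨c • φ, contDiff_const.smul h1, h2.smul_left (f := fun _ => c), h3.const_smul c,
          (MemLp.toLp_const_smul c h3).symm⟩ }
  have horth : Sᗮ = ⊥ := by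
    rw [eq_bot_iff]
    intro u hu
    rw [Submodule.mem_bot]
    rw [Submodule.mem_orthogonal] at hu
    have hloc : LocallyIntegrable (u : (Fin d → ℝ) → ℂ) volume :=
      (Lp.memLp u).locallyIntegrable (by norm_num)
    have h0 := ae_eq_zero_of_integral_contDiff_smul_eq_zero hloc (fun ψ hψ hψc => by
      have hφ1 : ContDiff ℝ ((⊤ : ℕ∞) : WithTop ℕ∞) (fun x => (ψ x : ℂ)) :=
        Complex.ofRealCLM.contDiff.comp hψ
      have hφ2 : HasCompactSupport (fun x => (ψ x : ℂ)) := by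
        exact hψc.comp_left (g := fun r : ℝ => (r : ℂ)) Complex.ofReal_zero
      have hφ3 : MemLp (fun x => (ψ x : ℂ)) 2 volume := hφ1.continuous.memLp_of_hasCompactSupport hφ2
      have h4 := hu _ ⟨_, hφ1, hφ2, hφ3, rfl⟩
      have h5 : u = (Lp.memLp u).toLp u := (Lp.toLp_coeFn u _).symm
      rw [h5, inner_toLp] at h4
      rw [← h4]
      refine integral_congr_ae (Eventually.of_forall fun x => ?_)
      simp [Complex.real_smul])
    exact (Lp.eq_zero_iff_ae_eq_zero).2 h0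
  have hdense : S.topologicalClosure = ⊤ := (Submodule.topologicalClosure_eq_top_iff).2 horth
  have hcl : IsClosed {u : HH d | ‖inner ℂ u w‖ ≤ K * ‖u‖} :=
    isClosed_le (by fun_prop) (by fun_prop)
  have hall : ∀ u : HH d, ‖inner ℂ u w‖ ≤ K * ‖u‖ := by
    intro u
    have hu : u ∈ closure (S : Set (HH d)) := by
      rw [← Submodule.topologicalClosure_coe, hdense]
      trivial
    refine closure_minimal ?_ hcl hu
    rintro _ ⟨φ, h1, h2, h3, rfl⟩
    exact h φ h1 h2 h3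
  have hw := hall w
  rw [inner_self_eq_norm_sq_to_K] at hw
  rw [norm_pow] at hw
  have h6 : ‖((‖w‖ : ℝ) : ℂ)‖ = ‖w‖ := by simp
  have h7 : ‖w‖ ^ 2 ≤ K * ‖w‖ := by simpa [h6] using hw
  by_cases hz : ‖w‖ = 0
  · rw [hz]; exact hK
  · have h8 : 0 < ‖w‖ := lt_of_le_of_ne (norm_nonneg _) (Ne.symm hz)
    nlinarith


lemma toLp_shift_norm {ψ : (Fin d → ℝ) → ℂ} (hψ : MemLp ψ 2 volume) (a : Fin d → ℝ)
    (h' : MemLp (fun x => ψ (x + a)) 2 volume) : ‖h'.toLp _‖ = ‖hψ.toLp ψ‖ := by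
  have h1 := W_norm (-a) 0 (hψ.toLp ψ)
  rw [W_toLp] at h1
  rw [← h1]
  congr 1
  rw [MemLp.toLp_eq_toLp_iff]
  refine Eventually.of_forall fun x => ?_
  simp [tf]

lemma memLp_shift {ψ : (Fin d → ℝ) → ℂ} (hψ : MemLp ψ 2 volume) (a : Fin d → ℝ) :
    MemLp (fun x => ψ (x + a)) 2 volume := by
  have h1 := tf_memLp (-a) 0 hψ
  refine h1.ae_eq (Eventually.of_forall fun x => ?_)
  simp [tf]

/-- differentiating the pairing of `g` with a translated test function -/
lemma hasDerivAt_pair (j : Fin d) {g h : (Fin d → ℝ) → ℂ} (hg : MemLp g 2 volume)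
    (hw : ∀ φ : (Fin d → ℝ) → ℂ, ContDiff ℝ ((⊤ : ℕ∞) : WithTop ℕ∞) φ → HasCompactSupport φ →
      ∫ x, g x * fderiv ℝ φ x (Pi.single j (1 : ℝ) : Fin d → ℝ) = - ∫ x, h x * φ x)
    {ψ : (Fin d → ℝ) → ℂ} (hψ : ContDiff ℝ ((⊤ : ℕ∞) : WithTop ℕ∞) ψ) (hψc : HasCompactSupport ψ)
    (s : ℝ) :
    HasDerivAt (fun s : ℝ => ∫ x, g x * ψ (x + e j s)) (-∫ x, h x * ψ (x + e j s)) s := by
  set ψ' : (Fin d → ℝ) → ℂ := fun y => ψ (-y) with hψ'
  have hψ'1 : ContDiff ℝ ((⊤ : ℕ∞) : WithTop ℕ∞) ψ' := hψ.comp contDiff_neg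
  have hψ'2 : HasCompactSupport ψ' := hψc.comp_homeomorph (Homeomorph.neg _)
  have hloc : LocallyIntegrable g volume := hg.locallyIntegrable (by norm_num)
  have hψ'3 : ContDiff ℝ 1 ψ' := hψ'1.of_le (by exact_mod_cast le_top)
  set L := ContinuousLinearMap.mul ℝ ℂ with hL
  have h1 := hψ'2.hasFDerivAt_convolution_right L hloc hψ'3 (-(e j s))
  have h2 : HasDerivAt (fun s : ℝ => -(e j s)) (-(e j 1)) s := by
    have h3 : (fun s : ℝ => -(e j s)) = fun s : ℝ => s • (-(e j 1)) := by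
      funext s
      simp only [e]
      rw [smul_neg, ← Pi.single_smul]
      simp
    rw [h3]
    simpa using (hasDerivAt_id s).smul_const (-(e j 1))
  have h3 := h1.comp_hasDerivAt s h2
  have h4 : (convolution g ψ' L volume) ∘ (fun s : ℝ => -(e j s)) =
      fun s : ℝ => ∫ x, g x * ψ (x + e j s) := by
    funext s
    rw [Function.comp_apply, convolution_def]
    refine integral_congr_ae (Eventually.of_forall fun x => ?_)
    simp only [hL, hψ', ContinuousLinearMap.mul_apply']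
    congr 2
    abel
  have h5 : (convolution g (fderiv ℝ ψ') (L.precompR (Fin d → ℝ)) volume (-(e j s))) (-(e j 1)) =
      -∫ x, h x * ψ (x + e j s) := by
    rw [convolution_precompR_apply L hloc (hψ'2.fderiv ℝ)
      (hψ'3.continuous_fderiv (by norm_num)), convolution_def]
    have h6 := hw (fun x => ψ (x + e j s)) (hψ.comp (contDiff_id.add contDiff_const))
      (hψc.comp_homeomorph (Homeomorph.addRight (e j s)))
    rw [← h6]
    refine integral_congr_ae (Eventually.of_forall fun x => ?_)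
    simp only [hL, ContinuousLinearMap.mul_apply']
    have h7 : fderiv ℝ ψ' (-(e j s) - x) = -(fderiv ℝ ψ (x + e j s)) := by
      have h9 : DifferentiableAt ℝ ψ (-(-(e j s) - x)) :=
        (hψ.differentiable (by norm_num)).differentiableAt
      have h10 : HasFDerivAt ψ' ((fderiv ℝ ψ (-(-(e j s) - x))).comp
          (-ContinuousLinearMap.id ℝ (Fin d → ℝ))) (-(e j s) - x) :=
        h9.hasFDerivAt.comp _ (hasFDerivAt_id _).neg
      rw [h10.fderiv]
      have h11 : -(-(e j s) - x) = x + e j s := by abel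
      rw [h11]
      ext v
      simp
    have h8 : fderiv ℝ (fun x => ψ (x + e j s)) x = fderiv ℝ ψ (x + e j s) :=
      fderiv_comp_add_right _
    rw [h7, h8]
    simp [e]
  rw [h4, h5] at h3
  exact h3

/-- translations of a function with weak derivative in `L²` -/
theorem trans_lip (j : Fin d) {g h : (Fin d → ℝ) → ℂ} (hg : MemLp g 2 volume)
    (hh : MemLp h 2 volume)
    (hw : ∀ φ : (Fin d → ℝ) → ℂ, ContDiff ℝ ((⊤ : ℕ∞) : WithTop ℕ∞) φ → HasCompactSupport φ →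
      ∫ x, g x * fderiv ℝ φ x (Pi.single j (1 : ℝ) : Fin d → ℝ) = - ∫ x, h x * φ x) (r : ℝ) :
    ‖W (e j r) 0 (hg.toLp g) - hg.toLp g‖ ≤ ‖hh.toLp h‖ * |r| := by
  refine norm_le_of_test _ _ (by positivity) fun φ hφ hφc hφ2 => ?_
  set ψ : (Fin d → ℝ) → ℂ := fun x => (starRingEnd ℂ) (φ x) with hψ
  have hψ1 : ContDiff ℝ ((⊤ : ℕ∞) : WithTop ℕ∞) ψ := Complex.conjCLE.contDiff.comp hφ
  have hψc : HasCompactSupport ψ := hφc.comp_left (g := fun z : ℂ => (starRingEnd ℂ) z) (map_zero _)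
  have hψ2 : MemLp ψ 2 volume := hφ2.star
  have hn : ‖hψ2.toLp ψ‖ = ‖hφ2.toLp φ‖ := by
    have h3 : ‖hψ2.toLp ψ‖ ^ 2 = ‖hφ2.toLp φ‖ ^ 2 := by
      rw [norm_sq_toLp, norm_sq_toLp]
      simp [hψ]
    exact (sq_eq_sq₀ (norm_nonneg _) (norm_nonneg _)).1 h3
  set F : ℝ → ℂ := fun s => ∫ x, g x * ψ (x + e j s) with hF
  have hb : ∀ s : ℝ, ‖-∫ x, h x * ψ (x + e j s)‖ ≤ ‖hh.toLp h‖ * ‖hφ2.toLp φ‖ := by
    intro s
    rw [norm_neg]
    refine (cs_int hh (memLp_shift hψ2 (e j s))).trans ?_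
    rw [toLp_shift_norm hψ2, hn]
  have hmv := Convex.norm_image_sub_le_of_norm_hasDerivWithin_le (f := F)
    (f' := fun s => -∫ x, h x * ψ (x + e j s)) (s := Set.univ)
    (C := ‖hh.toLp h‖ * ‖hφ2.toLp φ‖) (x := 0) (y := r)
    (fun s _ => (hasDerivAt_pair j hg hw hψ1 hψc s).hasDerivWithinAt) (fun s _ => hb s)
    convex_univ trivial trivial
  have hin : inner ℂ (hφ2.toLp φ) (W (e j r) 0 (hg.toLp g) - hg.toLp g) = F r - F 0 := by
    rw [inner_sub_right, W_toLp, inner_toLp, inner_toLp]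
    congr 1
    · simp only [hF]
      rw [← integral_sub_right_eq_self (fun x => g x * ψ (x + e j r)) (e j r)]
      refine integral_congr_ae (Eventually.of_forall fun x => ?_)
      simp only [tf, hψ, sub_add_cancel, Pi.zero_apply, zero_mul, Finset.sum_const_zero,
        Complex.ofReal_zero, mul_zero, Complex.exp_zero, one_mul]
      ring
    · simp only [hF]
      refine integral_congr_ae (Eventually.of_forall fun x => ?_)
      simp only [hψ, e, Pi.single_zero, add_zero]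
      ring
  rw [hin]
  refine hmv.trans (le_of_eq ?_)
  rw [sub_zero, Real.norm_eq_abs]
  ring

end Pool.Agent.W758.BLT
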