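import Mathlib
import Pool.Agent.W758.BLT.Trans

/-! # The Balian-Low theorem for Riesz bases over arbitrary lattices -/

open Filter Topology MeasureTheory

namespace Pool.Agent.W758.BLT

set_option linter.unusedSectionVars false

variable {d : ℕ}

/-- the first half of the lattice vector -/
noncomputable def la (M : Matrix (Fin d ⊕ Fin d) (Fin d ⊕ Fin d) ℝ) (k : Fin d ⊕ Fin d → ℤ) :
    Fin d → ℝ := fun j => Matrix.mulVec M (fun i => ((k i : ℤ) : ℝ)) (Sum.inl j)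

/-- the second half of the lattice vector -/
noncomputable def lb (M : Matrix (Fin d ⊕ Fin d) (Fin d ⊕ Fin d) ℝ) (k : Fin d ⊕ Fin d → ℤ) :
    Fin d → ℝ := fun j => Matrix.mulVec M (fun i => ((k i : ℤ) : ℝ)) (Sum.inr j)

lemma la_add (M : Matrix (Fin d ⊕ Fin d) (Fin d ⊕ Fin d) ℝ) (k m : Fin d ⊕ Fin d → ℤ) :
    la M (k + m) = la M k + la M m := by
  funext j
  simp only [la, Pi.add_apply, Matrix.mulVec, dotProduct, ← Finset.sum_add_distrib]
  refine Finset.sum_congr rfl fun i _ => ?_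
  push_cast
  ring

lemma lb_add (M : Matrix (Fin d ⊕ Fin d) (Fin d ⊕ Fin d) ℝ) (k m : Fin d ⊕ Fin d → ℤ) :
    lb M (k + m) = lb M k + lb M m := by
  funext j
  simp only [lb, Pi.add_apply, Matrix.mulVec, dotProduct, ← Finset.sum_add_distrib]
  refine Finset.sum_congr rfl fun i _ => ?_
  push_cast
  ring

lemma la_zero (M : Matrix (Fin d ⊕ Fin d) (Fin d ⊕ Fin d) ℝ) : la M 0 = 0 := by
  funext j
  simp [la, Matrix.mulVec, dotProduct]

lemma lb_zero (M : Matrix (Fin d ⊕ Fin d) (Fin d ⊕ Fin d) ℝ) : lb M 0 = 0 := by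
  funext j
  simp [lb, Matrix.mulVec, dotProduct]

lemma la_neg (M : Matrix (Fin d ⊕ Fin d) (Fin d ⊕ Fin d) ℝ) (k : Fin d ⊕ Fin d → ℤ) :
    la M (-k) = -la M k := by
  have h := la_add M k (-k)
  rw [add_neg_cancel, la_zero] at h
  exact (neg_eq_of_add_eq_zero_right h.symm).symm

lemma lb_neg (M : Matrix (Fin d ⊕ Fin d) (Fin d ⊕ Fin d) ℝ) (k : Fin d ⊕ Fin d → ℤ) :
    lb M (-k) = -lb M k := by
  have h := lb_add M k (-k)
  rw [add_neg_cancel, lb_zero] at h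
  exact (neg_eq_of_add_eq_zero_right h.symm).symm

lemma ph_tendsto (y : ℝ) : Tendsto (fun r : ℝ => ph (r * y)) (𝓝[≠] 0) (𝓝 1) := by
  have h : Continuous fun r : ℝ => ph (r * y) := continuous_ph.comp (continuous_id.mul continuous_const)
  have h2 := h.tendsto 0
  simp only [zero_mul, ph_zero] at h2
  exact h2.mono_left nhdsWithin_le_nhds

lemma q_tendsto : Tendsto (fun r : ℝ => ‖ph (-(r * r)) - 1‖ / r ^ 2) (𝓝[≠] 0)
    (𝓝 (2 * Real.pi)) := by
  have h1 := (hasDerivAt_ph 1).tendsto_slope_zero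
  have h2 : Tendsto (fun t : ℝ => ‖t⁻¹ • (ph ((0 + t) * 1) - ph (0 * 1))‖) (𝓝[≠] 0)
      (𝓝 ‖2 * (Real.pi : ℂ) * Complex.I * ((1 : ℝ) : ℂ)‖) := h1.norm
  have h3 : ‖2 * (Real.pi : ℂ) * Complex.I * ((1 : ℝ) : ℂ)‖ = 2 * Real.pi := by
    simp only [norm_mul, Complex.norm_real, Complex.norm_I, RCLike.norm_ofNat,
      Real.norm_eq_abs, mul_one, abs_of_pos Real.pi_pos, abs_one]
  rw [h3] at h2
  have h4 : Tendsto (fun r : ℝ => -(r * r)) (𝓝[≠] 0) (𝓝[≠] 0) := by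
    rw [tendsto_nhdsWithin_iff]
    constructor
    · have h5 : Continuous fun r : ℝ => -(r * r) := by fun_prop
      have h6 := h5.tendsto 0
      simp only [mul_zero, neg_zero] at h6
      exact h6.mono_left nhdsWithin_le_nhds
    · filter_upwards [self_mem_nhdsWithin] with r hr
      simpa using hr
  refine (h2.comp h4).congr fun r => ?_
  simp only [Function.comp_apply, zero_add, mul_one, ph_zero, norm_smul,
    norm_inv, Real.norm_eq_abs]
  rw [inv_mul_eq_div, sq, abs_neg, abs_mul_self]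

theorem main (d : ℕ) (hd : 0 < d) (M : Matrix (Fin d ⊕ Fin d) (Fin d ⊕ Fin d) ℝ)
    (g : (Fin d → ℝ) → ℂ) (hg : MemLp g 2 volume)
    (hcomp : ∀ h : (Fin d → ℝ) → ℂ, MemLp h 2 volume →
      (∀ k : Fin d ⊕ Fin d → ℤ,
        ∫ x, (starRingEnd ℂ) (h x) * tf (la M k) (lb M k) g x = 0) → h =ᵐ[volume] 0)
    (A B : ℝ) (hA0 : 0 < A) (hB0 : 0 < B)
    (hAB : ∀ (s : Finset (Fin d ⊕ Fin d → ℤ)) (c : (Fin d ⊕ Fin d → ℤ) → ℂ),
        A * ∑ k ∈ s, ‖c k‖ ^ 2 ≤
          ∫ x, ‖∑ k ∈ s, c k * tf (la M k) (lb M k) g x‖ ^ 2 ∧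
        ∫ x, ‖∑ k ∈ s, c k * tf (la M k) (lb M k) g x‖ ^ 2
          ≤ B * ∑ k ∈ s, ‖c k‖ ^ 2)
    (hx : Integrable (fun x : Fin d → ℝ => (∑ j, x j ^ 2) * ‖g x‖ ^ 2) volume)
    (hw : ∀ j : Fin d, ∃ h : (Fin d → ℝ) → ℂ, MemLp h 2 volume ∧
       ∀ φ : (Fin d → ℝ) → ℂ, ContDiff ℝ ((⊤ : ℕ∞) : WithTop ℕ∞) φ → HasCompactSupport φ →
         ∫ x, g x * fderiv ℝ φ x (Pi.single j (1 : ℝ) : Fin d → ℝ) = - ∫ x, h x * φ x) :
    False := by
  classical
  set j : Fin d := ⟨0, hd⟩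
  set G : HH d := hg.toLp g with hG
  set P : (Fin d ⊕ Fin d → ℤ) → HH d →L[ℂ] HH d := fun k => W (la M k) (lb M k) with hPdef
  have hsum : ∀ (s : Finset (Fin d ⊕ Fin d → ℤ)) (c : (Fin d ⊕ Fin d → ℤ) → ℂ),
      ‖∑ k ∈ s, c k • P k G‖ ^ 2 = ∫ x, ‖∑ k ∈ s, c k * tf (la M k) (lb M k) g x‖ ^ 2 := by
    intro s c
    have hm : MemLp (fun x => ∑ k ∈ s, c k * tf (la M k) (lb M k) g x) 2 volume :=
      memLp_finsetSum s fun k _ => (tf_memLp (la M k) (lb M k) hg).const_mul (c k)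
    have h1 : ∑ k ∈ s, c k • P k G = hm.toLp _ := by
      apply Lp.ext
      have h2 : ∀ k ∈ s, (c k • P k G : HH d) =ᵐ[volume] fun x => c k * tf (la M k) (lb M k) g x := by
        intro k _
        have h3 : P k G = (tf_memLp (la M k) (lb M k) hg).toLp _ := W_toLp _ _ hg
        filter_upwards [Lp.coeFn_smul (c k) (P k G), (tf_memLp (la M k) (lb M k) hg).coeFn_toLp]
          with x hx1 hx2
        rw [hx1, Pi.smul_apply, h3, hx2, smul_eq_mul]
      have h4 := Lp.coeFn_finsetSum (s := s) (fun k => c k • P k G)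
      refine h4.trans ?_
      refine EventuallyEq.trans ?_ hm.coeFn_toLp.symm
      have h5 : ∀ᵐ x ∂(volume : Measure (Fin d → ℝ)), ∀ k ∈ s,
          (c k • P k G : HH d) x = c k * tf (la M k) (lb M k) g x := by
        exact (Finset.eventually_all s).2 h2
      filter_upwards [h5] with x hx5
      rw [Finset.sum_apply]
      exact Finset.sum_congr rfl hx5
    rw [h1, norm_sq_toLp]
  have hB : ∀ (s : Finset (Fin d ⊕ Fin d → ℤ)) (c : (Fin d ⊕ Fin d → ℤ) → ℂ),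
      ‖∑ k ∈ s, c k • P k G‖ ^ 2 ≤ B * ∑ k ∈ s, ‖c k‖ ^ 2 := fun s c => by
    rw [hsum]; exact (hAB s c).2
  have hA : ∀ (s : Finset (Fin d ⊕ Fin d → ℤ)) (c : (Fin d ⊕ Fin d → ℤ) → ℂ),
      A * ∑ k ∈ s, ‖c k‖ ^ 2 ≤ ‖∑ k ∈ s, c k • P k G‖ ^ 2 := fun s c => by
    rw [hsum]; exact (hAB s c).1
  have hc : ∀ h : HH d, (∀ k, inner ℂ h (P k G) = 0) → h = 0 := by
    intro h hh
    refine (Lp.eq_zero_iff_ae_eq_zero).2 (hcomp h (Lp.memLp h) fun k => ?_)
    have h1 := hh k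
    have h3 : P k G = (tf_memLp (la M k) (lb M k) hg).toLp _ := W_toLp _ _ hg
    have h5 : h = (Lp.memLp h).toLp h := (Lp.toLp_coeFn h _).symm
    rw [h3, h5, inner_toLp] at h1
    exact h1
  set c := coef hA0 hB0 hB hA hc with hcdef
  obtain ⟨y, hy⟩ := modulation_tendsto j hg hx
  obtain ⟨h, hh, hwj⟩ := hw j
  have hlip := trans_lip j hg hh hwj
  have hVg : Tendsto (fun r => W (e j r) 0 G) (𝓝[≠] 0) (𝓝 G) := by
    rw [tendsto_iff_norm_sub_tendsto_zero]
    have h1 : Continuous fun r : ℝ => ‖hh.toLp h‖ * |r| := by fun_prop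
    have h2 := (h1.tendsto 0).mono_left (nhdsWithin_le_nhds (s := {0}ᶜ))
    rw [abs_zero, mul_zero] at h2
    exact squeeze_zero (fun r => norm_nonneg _) hlip h2
  have hUg : Tendsto (fun r => W 0 (e j r) G) (𝓝[≠] 0) (𝓝 G) := by
    have h1 : Tendsto (fun r : ℝ => (r : ℂ)) (𝓝[≠] 0) (𝓝 0) := by
      have h0 := Complex.continuous_ofReal.tendsto 0
      rw [Complex.ofReal_zero] at h0
      exact h0.mono_left nhdsWithin_le_nhds
    have h2 := (h1.smul hy).add_const G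
    rw [zero_smul, zero_add] at h2
    refine h2.congr' ?_
    filter_upwards [self_mem_nhdsWithin] with r hr
    have hr' : (r : ℂ) ≠ 0 := by exact_mod_cast hr
    rw [smul_smul, mul_inv_cancel₀ hr', one_smul, sub_add_cancel]
  have hUVg : Tendsto (fun r => W 0 (e j r) (W (e j r) 0 G)) (𝓝[≠] 0) (𝓝 G) := by
    rw [tendsto_iff_norm_sub_tendsto_zero] at hVg hUg ⊢
    have h1 := hVg.add hUg
    rw [add_zero] at h1
    refine squeeze_zero (fun r => norm_nonneg _) (fun r => ?_) h1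
    have h2 : W 0 (e j r) (W (e j r) 0 G) - G =
        W 0 (e j r) (W (e j r) 0 G - G) + (W 0 (e j r) G - G) := by
      rw [map_sub]; abel
    rw [h2]
    refine (norm_add_le _ _).trans ?_
    rw [W_norm]
  have hPP : ∀ k m f, P k (P m f) = ph (-∑ i, la M k i * lb M m i) • P (k + m) f := by
    intro k m f
    simp only [hPdef, W_comp, la_add, lb_add]
  have hP0 : P 0 G = G := by
    simp only [hPdef, la_zero, lb_zero, W_zero]
  refine main_abs (P := P) (g := G) (c := (c : HH d →L[ℂ] L2 (Fin d ⊕ Fin d → ℤ)))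
    (ω := fun k m => ph (-∑ i, la M k i * lb M m i))
    (U := fun r => W 0 (e j r)) (V := fun r => W (e j r) 0)
    (χ := fun r k => ph (r * la M k j)) (ψ := fun r k => ph (r * (-lb M k j)))
    (q := fun r => ph (-(r * r))) (C := ‖hh.toLp h‖) (y := y)
    (fun f => coef_hasSum hA0 hB0 hB hA hc f) (fun m k => coef_v hA0 hB0 hB hA hc m k)
    hPP hP0 ?_ ?_ ?_ ?_ ?_ ?_ ?_ ?_ ?_ ?_ ?_ ?_ q_tendsto hlip hy hUVg
  · simp [la_zero]
  · intro k
    simp only [la_neg, lb_neg, Pi.neg_apply, mul_neg, neg_mul]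
  · intro k
    rw [norm_ph]
  · intro r k
    simp only [hPdef, W_comp, smul_smul, zero_add, add_zero]
    rw [add_comm (e j r) (lb M k)]
    congr 1
    rw [sum_mul_e, ← ph_add]
    congr 1
    simp
    ring
  · intro r
    simp [la_zero]
  · intro r k
    simp only [hPdef, W_comp, smul_smul, zero_add, add_zero]
    rw [add_comm (e j r) (la M k)]
    congr 1
    rw [sum_e_mul, ← ph_add]
    congr 1
    simp
  · intro r
    simp [lb_zero]
  · intro r k
    rw [norm_ph]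
  · intro r k
    rw [norm_ph]
  · intro k
    exact ph_tendsto _
  · intro k
    exact ph_tendsto _
  · intro r
    simp only [W_comp, smul_smul, zero_add, add_zero]
    congr 1
    rw [sum_e_mul]
    simp [e]

end Pool.Agent.W758.BLT
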